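import Mathlib

/-!
# Primes without small competitors of the triple `(a, b, 3ab)`
-/

namespace Pool.Agent.Results.MP_33d2b7_nt.NoSmallTriple

/-- an odd number not divisible by 3 and larger than 1 has a prime factor at least 5 -/
lemma exists_factor {o : ℕ} (h1 : 1 < o) (h2 : o % 2 = 1) (h3 : o % 3 ≠ 0) :
    ∃ l : ℕ, l.Prime ∧ 5 ≤ l ∧ l ∣ o := by
  refine ⟨o.minFac, Nat.minFac_prime (by omega), ?_, Nat.minFac_dvd o⟩
  have hp : o.minFac.Prime := Nat.minFac_prime (by omega)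
  have hd := Nat.minFac_dvd o
  have n2 : o.minFac ≠ 2 := fun h => by
    rw [h] at hd; omega
  have n3 : o.minFac ≠ 3 := fun h => by
    rw [h] at hd; omega
  have n4 : o.minFac ≠ 4 := fun h => by
    rw [h] at hp; exact absurd hp (by norm_num)
  have := hp.two_le
  omega

/-- a prime at least 5 dividing `9 t ^ 2 - 4` -/
lemma exists_prime {t : ℕ} (h0 : 0 < t) (h2 : t ≠ 2) :
    ∃ l : ℕ, l.Prime ∧ 5 ≤ l ∧ l ≤ 3 * t + 2 ∧ (l:ℤ) ∣ 9 * (t:ℤ) ^ 2 - 4 := by
  have key : ∀ o : ℕ, 1 < o → o % 2 = 1 → o % 3 ≠ 0 → (o ∣ 3 * t + 2 ∨ o ∣ 3 * t - 2) →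
      ∃ l : ℕ, l.Prime ∧ 5 ≤ l ∧ l ≤ 3 * t + 2 ∧ (l:ℤ) ∣ 9 * (t:ℤ) ^ 2 - 4 := by
    intro o a1 a2 a3 a4
    obtain ⟨l, b1, b2, b3⟩ := exists_factor a1 a2 a3
    have hz : 9 * (t:ℤ) ^ 2 - 4 = ((3 * t + 2 : ℕ) : ℤ) * ((3 * t - 2 : ℕ) : ℤ) := by
      rw [Nat.cast_sub (by omega)]
      push_cast
      ring
    refine ⟨l, b1, b2, ?_, ?_⟩
    · rcases a4 with h | h
      · exact Nat.le_of_dvd (by omega) (b3.trans h)
      · have := Nat.le_of_dvd (by omega) (b3.trans h)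
        omega
    · rw [hz]
      rcases a4 with h | h
      · exact Dvd.dvd.mul_right (by exact_mod_cast b3.trans h) _
      · exact Dvd.dvd.mul_left (by exact_mod_cast b3.trans h) _
  have h4 : t % 4 = 0 ∨ t % 4 = 1 ∨ t % 4 = 2 ∨ t % 4 = 3 := by omega
  rcases h4 with h | h | h | h
  · obtain ⟨s, rfl⟩ : ∃ s, t = 4 * s := ⟨t / 4, by omega⟩
    exact key (6 * s + 1) (by omega) (by omega) (by omega) (Or.inl ⟨2, by ring⟩)
  · exact key (3 * t + 2) (by omega) (by omega) (by omega) (Or.inl dvd_rfl)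
  · obtain ⟨s, rfl⟩ : ∃ s, t = 4 * s + 2 := ⟨t / 4, by omega⟩
    rcases Nat.even_or_odd' s with ⟨w, hw | hw⟩
    · -- `3 s + 1` is odd, `3 t - 2 = 4 (3 s + 1)`
      exact key (3 * s + 1) (by omega) (by omega) (by omega) (Or.inr ⟨4, by omega⟩)
    · -- `3 s + 2` is odd, `3 t + 2 = 4 (3 s + 2)`
      exact key (3 * s + 2) (by omega) (by omega) (by omega) (Or.inl ⟨4, by ring⟩)
  · exact key (3 * t + 2) (by omega) (by omega) (by omega) (Or.inl dvd_rfl)

/-- the obstruction modulo 8 -/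
lemma obs_two {p t u v : ℕ} (h8 : p % 8 = 1)
    (heq : t ^ 2 + u ^ 2 + v ^ 2 + 3 * t * u * v = p) : t % 4 ≠ 2 := by
  intro h2
  have h3 : (t ^ 2 + u ^ 2 + v ^ 2 + 3 * t * u * v) % 8 = 1 := by rw [heq]; exact h8
  have ht : t % 8 = 2 ∨ t % 8 = 6 := by omega
  have hu : u % 8 < 8 := Nat.mod_lt _ (by norm_num)
  have hv : v % 8 < 8 := Nat.mod_lt _ (by norm_num)
  have h4 : ((t % 8) ^ 2 + (u % 8) ^ 2 + (v % 8) ^ 2 + 3 * (t % 8) * (u % 8) * (v % 8)) % 8 = 1 := by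
    rw [← h3]
    simp [Nat.add_mod, Nat.mul_mod, Nat.pow_mod]
  generalize u % 8 = i at hu h4
  generalize v % 8 = j at hv h4
  rcases ht with ht | ht <;> rw [ht] at h4 <;>
    interval_cases i <;> interval_cases j <;> simp at h4

/-- the obstruction modulo a prime -/
lemma obs_prime {p t u v l : ℕ} (l1 : l.Prime) (l2 : 5 ≤ l)
    (hl : ¬ IsSquare (9 * (p : ZMod l) - 4))
    (heq : t ^ 2 + u ^ 2 + v ^ 2 + 3 * t * u * v = p) : ¬ (l:ℤ) ∣ 9 * (t:ℤ) ^ 2 - 4 := by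
  intro l4
  have : Fact l.Prime := ⟨l1⟩
  apply hl
  have e2 : ((2:ℕ) : ZMod l) ≠ 0 := by
    rw [Ne, ZMod.natCast_eq_zero_iff]
    intro h
    have := Nat.le_of_dvd (by norm_num) h
    omega
  have e1 : (9 * (t : ZMod l) ^ 2 - 4) = 0 := by
    have := (ZMod.intCast_zmod_eq_zero_iff_dvd (9 * (t:ℤ) ^ 2 - 4) l).mpr l4
    push_cast at this
    exact this
  have e3 : (p : ZMod l) = (t : ZMod l) ^ 2 + (u : ZMod l) ^ 2 + (v : ZMod l) ^ 2 +
      3 * t * u * v := by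
    rw [← heq]; push_cast; ring
  refine ⟨(6 * v + 9 * t * u) / 2, ?_⟩
  have e2' : (2 : ZMod l) ≠ 0 := by exact_mod_cast e2
  rw [e3]
  field_simp
  linear_combination (-(9 * (u : ZMod l) ^ 2 - 4)) * e1

/-- both obstructions and the size bound -/
lemma obs {p t u v Y : ℕ} (h8 : p % 8 = 1)
    (hl : ∀ l : ℕ, l.Prime → 5 ≤ l → l ≤ Y → ¬ IsSquare (9 * (p : ZMod l) - 4))
    (ht : 0 < t) (heq : t ^ 2 + u ^ 2 + v ^ 2 + 3 * t * u * v = p) :
    t % 4 ≠ 2 ∧ (∀ l : ℕ, l.Prime → 5 ≤ l → l ≤ Y → ¬ (l:ℤ) ∣ 9 * (t:ℤ) ^ 2 - 4) ∧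
      Y < 3 * t + 2 := by
  have h2 := obs_two h8 heq
  have h3 : ∀ l : ℕ, l.Prime → 5 ≤ l → l ≤ Y → ¬ (l:ℤ) ∣ 9 * (t:ℤ) ^ 2 - 4 :=
    fun l l1 l2 l3 => obs_prime l1 l2 (hl l l1 l2 l3) heq
  refine ⟨h2, h3, ?_⟩
  by_contra hcon
  obtain ⟨l, l1, l2, l3, l4⟩ := exists_prime ht (by rintro rfl; exact h2 rfl)
  exact h3 l l1 l2 (by omega) l4

/-- a suitable residue modulo a prime at least 5 -/
lemma exists_res {l : ℕ} (hl : l.Prime) (h5 : 5 ≤ l) :
    ∃ r : ℕ, Nat.Coprime r l ∧ ¬ IsSquare (9 * (r : ZMod l) - 4) := by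
  have : Fact l.Prime := ⟨hl⟩
  have hodd : ringChar (ZMod l) ≠ 2 := by
    rw [ZMod.ringChar_zmod_n]; omega
  obtain ⟨n, hn⟩ := FiniteField.exists_nonsquare (F := ZMod l) hodd
  have e9 : (9 : ZMod l) ≠ 0 := by
    have : ((9:ℕ) : ZMod l) ≠ 0 := by
      rw [Ne, ZMod.natCast_eq_zero_iff]
      intro h
      have h3 : l ∣ 3 ^ 2 := by norm_num; exact h
      have := Nat.le_of_dvd (by norm_num) (hl.dvd_of_dvd_pow h3)
      omega
    exact_mod_cast this
  -- two candidates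
  have cand : ∀ m : ZMod l, ¬ IsSquare m → m + 4 ≠ 0 →
      ∃ r : ℕ, Nat.Coprime r l ∧ ¬ IsSquare (9 * (r : ZMod l) - 4) := by
    intro m hm hm4
    refine ⟨((m + 4) / 9).val, ?_, ?_⟩
    · have hne : (m + 4) / 9 ≠ 0 := div_ne_zero hm4 e9
      refine Nat.Coprime.symm ((Nat.Prime.coprime_iff_not_dvd hl).mpr fun h => hne ?_)
      have := (ZMod.natCast_eq_zero_iff ((m + 4) / 9).val l).mpr h
      rwa [ZMod.natCast_zmod_val] at this
    · rw [ZMod.natCast_zmod_val]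
      have : 9 * ((m + 4) / 9) - 4 = m := by field_simp; ring
      rw [this]
      exact hm
  by_cases hc : n + 4 = 0
  · -- use `n * 4` instead
    have hn0 : n ≠ 0 := by
      rintro rfl
      exact hn ⟨0, by simp⟩
    have e2 : (2 : ZMod l) ≠ 0 := by
      have : ((2:ℕ) : ZMod l) ≠ 0 := by
        rw [Ne, ZMod.natCast_eq_zero_iff]
        intro h
        have := Nat.le_of_dvd (by norm_num) h
        omega
      exact_mod_cast this
    have e3 : (3 : ZMod l) ≠ 0 := by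
      have : ((3:ℕ) : ZMod l) ≠ 0 := by
        rw [Ne, ZMod.natCast_eq_zero_iff]
        intro h
        have := Nat.le_of_dvd (by norm_num) h
        omega
      exact_mod_cast this
    refine cand (n * 4) ?_ ?_
    · rintro ⟨w, hw⟩
      apply hn
      refine ⟨w / 2, ?_⟩
      field_simp
      linear_combination hw
    · intro h
      -- `4 n + 4 = 0` and `n + 4 = 0` give `12 = 0`
      have : (12 : ZMod l) = 0 := by linear_combination 4 * hc - h
      have h12 : (12 : ZMod l) = 2 * 2 * 3 := by norm_num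
      rw [h12] at this
      exact mul_ne_zero (mul_ne_zero e2 e2) e3 this
  · exact cand n hn hc

/-- the residue class -/
lemma exists_class (Y : ℕ) : ∃ q r : ℕ, 0 < q ∧ Nat.Coprime r q ∧
    (∀ l : ℕ, l.Prime → l ∣ q → l = 2 ∨ l ≤ Y) ∧
    ∀ p : ℕ, p ≡ r [MOD q] → p % 8 = 1 ∧
      ∀ l : ℕ, l.Prime → 5 ≤ l → l ≤ Y → ¬ IsSquare (9 * (p : ZMod l) - 4) := by
  induction Y with
  | zero =>
    refine ⟨8, 1, by norm_num, by norm_num, fun l hl hd => ?_, fun p hp => ⟨hp, ?_⟩⟩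
    · left
      have : l ∣ 2 ^ 3 := by norm_num; exact hd
      exact (Nat.prime_dvd_prime_iff_eq hl Nat.prime_two).mp (hl.dvd_of_dvd_pow this)
    · intro l _ h5 h0
      omega
  | succ Y ih =>
    obtain ⟨q, r, hq, hc, hdiv, hp⟩ := ih
    by_cases hY : (Y + 1).Prime ∧ 5 ≤ Y + 1
    · obtain ⟨s, hs, hns⟩ := exists_res hY.1 hY.2
      have hcop : Nat.Coprime q (Y + 1) := by
        refine Nat.Coprime.symm ((Nat.Prime.coprime_iff_not_dvd hY.1).mpr fun h => ?_)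
        rcases hdiv (Y + 1) hY.1 h with h2 | h2 <;> omega
      obtain ⟨w, hw1, hw2⟩ := Nat.chineseRemainder hcop r s
      refine ⟨q * (Y + 1), w, by positivity, ?_, ?_, ?_⟩
      · refine Nat.Coprime.mul_right ?_ ?_
        · unfold Nat.Coprime
          rw [hw1.gcd_eq]
          exact hc
        · unfold Nat.Coprime
          rw [hw2.gcd_eq]
          exact hs
      · intro l hl hd
        rcases (hl.dvd_mul).mp hd with h | h
        · rcases hdiv l hl h with h2 | h2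
          · exact Or.inl h2
          · exact Or.inr (by omega)
        · exact Or.inr (Nat.le_of_dvd (by omega) h)
      · intro p hpw
        have m1 : p ≡ r [MOD q] := (hpw.of_mul_right _).trans hw1
        have m2 : p ≡ s [MOD (Y + 1)] := (hpw.of_mul_left _).trans hw2
        obtain ⟨a1, a2⟩ := hp p m1
        refine ⟨a1, fun l hl h5 hlY => ?_⟩
        rcases Nat.lt_or_ge Y l with h | h
        · have : l = Y + 1 := by omega
          subst this
          have e : (p : ZMod (Y + 1)) = (s : ZMod (Y + 1)) :=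
            (ZMod.natCast_eq_natCast_iff _ _ _).mpr m2
          rw [e]
          exact hns
        · exact a2 l hl h5 h
    · refine ⟨q, r, hq, hc, fun l hl hd => ?_, fun p hpr => ?_⟩
      · rcases hdiv l hl hd with h2 | h2
        · exact Or.inl h2
        · exact Or.inr (by omega)
      · obtain ⟨a1, a2⟩ := hp p hpr
        refine ⟨a1, fun l hl h5 hlY => ?_⟩
        refine a2 l hl h5 ?_
        by_contra hcon
        have : l = Y + 1 := by omega
        subst this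
        exact hY ⟨hl, h5⟩

/-- For every `Y` there is a residue class `r` modulo `q`, `gcd (r, q) = 1`, which contains
infinitely many primes, all of them `≡ 1 (mod 4)`, and such that for every prime `p` of the class
and every minimal triple `(a, b, c)` of `p` other than the one with `c = 3ab`, each of the numbers
`t = a, b, c - 3ab` satisfies: `t` is not `≡ 2 (mod 4)`, no prime `5 ≤ l ≤ Y` divides `9 t ^ 2 - 4`,
and `3 t + 2 > Y`. -/
theorem result (Y : ℕ) : ∃ q r : ℕ, 0 < q ∧ Nat.Coprime r q ∧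
    {p : ℕ | p.Prime ∧ p ≡ r [MOD q]}.Infinite ∧
    ∀ p : ℕ, p.Prime → p ≡ r [MOD q] → p % 4 = 1 ∧
      ∀ a b c : ℕ, 0 < a → a ≤ b → b ≤ c → 3 * a * b ≤ c →
        a ^ 2 + b ^ 2 + c ^ 2 = 3 * a * b * c + p → c ≠ 3 * a * b →
        ∀ t : ℕ, (t = a ∨ t = b ∨ t = c - 3 * a * b) →
          t % 4 ≠ 2 ∧ (∀ l : ℕ, l.Prime → 5 ≤ l → l ≤ Y → ¬ (l:ℤ) ∣ 9 * (t:ℤ) ^ 2 - 4) ∧
          Y < 3 * t + 2 := by
  obtain ⟨q, r, hq, hc, -, hp⟩ := exists_class Y
  refine ⟨q, r, hq, hc, Nat.infinite_setOfPred_prime_and_modEq hq.ne' hc, ?_⟩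
  intro p _ h3
  obtain ⟨h8, hl⟩ := hp p h3
  refine ⟨by omega, fun a b c ha hab _ hcle heq hne => ?_⟩
  obtain ⟨d, rfl⟩ : ∃ d, c = 3 * a * b + d := ⟨c - 3 * a * b, by omega⟩
  have hd : 0 < d := by
    rcases Nat.eq_zero_or_pos d with h | h
    · subst h; simp at hne
    · exact h
  have e : a ^ 2 + b ^ 2 + d ^ 2 + 3 * a * b * d = p := by
    have : a ^ 2 + b ^ 2 + (3 * a * b + d) ^ 2 =
        3 * a * b * (3 * a * b + d) + (a ^ 2 + b ^ 2 + d ^ 2 + 3 * a * b * d) := by ring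
    omega
  rintro t (rfl | rfl | ht)
  · exact obs h8 hl ha e
  · exact obs (u := a) (v := d) h8 hl (by omega) (by rw [← e]; ring)
  · rw [Nat.add_sub_cancel_left] at ht
    subst ht
    exact obs (u := a) (v := b) h8 hl hd (by rw [← e]; ring)

end Pool.Agent.Results.MP_33d2b7_nt.NoSmallTriple
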